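import Pool.Agent.H46.CH.LT

/-!
# Machines with counters are expressed by formulas
-/

set_option autoImplicit false

namespace Pool.Agent.H1.CH

open Classical Pool.Agent.H46.CH
open Pool.Agent.H8.VR (C2)
open Pool.Agent.H8.JS (NTM Cfg Mv IsComp lang num)

theorem pf_CC (hLOC : T_LOC) (hCA : T_CA) (hCB : T_CB) : T_CC := by
  intro J _ M
  have hfin : Finite M.I := M.finI
  obtain ⟨φ, hφ⟩ := hLOC M.Lb M.loc
  refine ⟨φ, Set.ext fun n => ⟨?_, ?_⟩⟩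
  · rintro ⟨-, P, R, hPB, hs⟩
    obtain ⟨lab, hlab⟩ := (hφ (Fin n) R).1 ⟨P, hs⟩
    exact hCB J M n R lab hPB hlab
  · intro hn
    obtain ⟨R, lab, hPB, hlab⟩ := hCA J M n hn
    obtain ⟨P, hP⟩ := (hφ (Fin n) R).2 ⟨lab, hlab⟩
    refine ⟨?_, P, R, hPB, hP⟩
    obtain ⟨T, b, hb, -⟩ := hPB
    obtain ⟨x, -⟩ := (hb 0).2 (Nat.zero_le T)
    exact x.pos

end Pool.Agent.H1.CH
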