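import Pool.Agent.H46.CH.LT

/-!
# Quantifier-free definability with two variables
-/

set_option autoImplicit false

namespace Pool.Agent.H1.CH

open Classical Pool.Agent.H46.CH
open Pool.Agent.H8.VR (C2)
open Pool.Agent.H8.JS (NTM Cfg Mv IsComp lang num)

/-- `Q` is definable -/
def DQ (Q : (A : Type) → (ℕ → A → Prop) → (ℕ → A → A → Prop) → (Bool → A) → Prop) : Prop :=
  ∃ ψ : C2, ∀ (A : Type) (P : ℕ → A → Prop) (R : ℕ → A → A → Prop) (v : Bool → A),
    ψ.Sat P R v ↔ Q A P R v

theorem dq_un (i : ℕ) (b : Bool) : DQ (fun _ P _ v => P i (v b)) :=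
  ⟨.un i b, fun _ _ _ _ => Iff.rfl⟩

theorem dq_bi (i : ℕ) (b c : Bool) : DQ (fun _ _ R v => R i (v b) (v c)) :=
  ⟨.bi i b c, fun _ _ _ _ => Iff.rfl⟩

theorem dq_neg {Q : (A : Type) → (ℕ → A → Prop) → (ℕ → A → A → Prop) → (Bool → A) → Prop}
    (h : DQ Q) : DQ (fun A P R v => ¬ Q A P R v) := by
  obtain ⟨ψ, h⟩ := h
  exact ⟨.neg ψ, fun A P R v => not_congr (h A P R v)⟩

theorem dq_and {Q Q' : (A : Type) → (ℕ → A → Prop) → (ℕ → A → A → Prop) → (Bool → A) → Prop}
    (h : DQ Q) (h' : DQ Q') : DQ (fun A P R v => Q A P R v ∧ Q' A P R v) := by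
  obtain ⟨ψ, h⟩ := h
  obtain ⟨ψ', h'⟩ := h'
  exact ⟨.and ψ ψ', fun A P R v => and_congr (h A P R v) (h' A P R v)⟩

theorem dq_congr {Q Q' : (A : Type) → (ℕ → A → Prop) → (ℕ → A → A → Prop) → (Bool → A) → Prop}
    (h : DQ Q) (h' : ∀ A P R v, Q A P R v ↔ Q' A P R v) : DQ Q' := by
  obtain ⟨ψ, h⟩ := h
  exact ⟨ψ, fun A P R v => (h A P R v).trans (h' A P R v)⟩

theorem dq_true : DQ (fun _ _ _ _ => True) := by
  refine dq_congr (dq_neg (dq_and (dq_un 0 true) (dq_neg (dq_un 0 true)))) ?_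
  intro A P R v
  exact ⟨fun _ => trivial, fun _ h => h.2 h.1⟩

theorem dq_const (p : Prop) : DQ (fun _ _ _ _ => p) := by
  by_cases hp : p
  · exact dq_congr dq_true fun _ _ _ _ => ⟨fun _ => hp, fun _ => trivial⟩
  · exact dq_congr (dq_neg dq_true) fun _ _ _ _ => ⟨fun h => absurd trivial h, fun h => absurd h hp⟩

theorem dq_iff {Q Q' : (A : Type) → (ℕ → A → Prop) → (ℕ → A → A → Prop) → (Bool → A) → Prop}
    (h : DQ Q) (h' : DQ Q') : DQ (fun A P R v => Q A P R v ↔ Q' A P R v) := by
  refine dq_congr (dq_and (dq_neg (dq_and h (dq_neg h'))) (dq_neg (dq_and h' (dq_neg h)))) ?_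
  intro A P R v
  tauto

theorem dq_list {I : Type}
    (Q : I → (A : Type) → (ℕ → A → Prop) → (ℕ → A → A → Prop) → (Bool → A) → Prop)
    (h : ∀ i, DQ (Q i)) (L : List I) : DQ (fun A P R v => ∀ i ∈ L, Q i A P R v) := by
  induction L with
  | nil => exact dq_congr dq_true fun _ _ _ _ => by simp
  | cons i L ih => exact dq_congr (dq_and (h i) ih) fun _ _ _ _ => by simp

theorem dq_all {I : Type} [Finite I]
    (Q : I → (A : Type) → (ℕ → A → Prop) → (ℕ → A → A → Prop) → (Bool → A) → Prop)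
    (h : ∀ i, DQ (Q i)) : DQ (fun A P R v => ∀ i, Q i A P R v) := by
  have := Fintype.ofFinite I
  exact dq_congr (dq_list Q h Finset.univ.toList) fun _ _ _ _ => by simp

theorem dq_ex {I : Type} [Finite I]
    (Q : I → (A : Type) → (ℕ → A → Prop) → (ℕ → A → A → Prop) → (Bool → A) → Prop)
    (h : ∀ i, DQ (Q i)) : DQ (fun A P R v => ∃ i, Q i A P R v) := by
  refine dq_congr (dq_neg (dq_all (fun i A P R v => ¬ Q i A P R v) fun i => dq_neg (h i))) ?_
  intro A P R v
  exact _root_.not_forall_not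

theorem pf_LOB : T_LOB := by
  intro Λ _ ix hix
  refine ⟨fun E => ?_, ?_⟩
  · have h : DQ (fun A P R v => ∃ t : Λ × Λ × (Fin 3 → Bool) × (Fin 3 → Bool),
        E t.1 t.2.1 (fun i => t.2.2.1 i = true) (fun i => t.2.2.2 i = true) ∧
        P (ix t.1) (v false) ∧ P (ix t.2.1) (v true) ∧
        (∀ i : Fin 3, (R i (v false) (v true) ↔ t.2.2.1 i = true)) ∧
        ∀ i : Fin 3, (R i (v true) (v false) ↔ t.2.2.2 i = true)) := by
      refine dq_ex _ fun t => dq_and (dq_const _) (dq_and (dq_un _ _) (dq_and (dq_un _ _)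
        (dq_and (dq_all _ fun i => ?_) (dq_all _ fun i => ?_))))
      · exact dq_iff (dq_bi _ _ _) (dq_const _)
      · exact dq_iff (dq_bi _ _ _) (dq_const _)
    obtain ⟨ψ, hψ⟩ := h
    refine ⟨ψ, fun A P R lab hM v => (hψ A P R v).trans ⟨?_, fun hE => ?_⟩⟩
    · rintro ⟨⟨l, l', a, b⟩, hE, h1, h2, h3, h4⟩
      have e1 : l = lab (v false) := (hM _ _).1 h1
      have e2 : l' = lab (v true) := (hM _ _).1 h2
      have e3 : bt R (v false) (v true) = fun i => a i = true := funext fun i => propext (h3 i)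
      have e4 : bt R (v true) (v false) = fun i => b i = true := funext fun i => propext (h4 i)
      rw [e3, e4, ← e1, ← e2]
      exact hE
    · refine ⟨(lab (v false), lab (v true), fun i => decide (R i (v false) (v true)),
        fun i => decide (R i (v true) (v false))), ?_, (hM _ _).2 rfl, (hM _ _).2 rfl,
        fun i => by simp, fun i => by simp⟩
      have e3 : (fun i : Fin 3 => decide (R i (v false) (v true)) = true) =
          bt R (v false) (v true) := funext fun i => propext (by simp [bt])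
      have e4 : (fun i : Fin 3 => decide (R i (v true) (v false)) = true) =
          bt R (v true) (v false) := funext fun i => propext (by simp [bt])
      show E _ _ (fun i : Fin 3 => decide (R i (v false) (v true)) = true)
        (fun i : Fin 3 => decide (R i (v true) (v false)) = true)
      rw [e3, e4]
      exact hE
  · exact dq_ex (fun l A P R v => ∀ l', P (ix l') (v false) ↔ l' = l) fun l =>
      dq_all (fun l' A P R v => P (ix l') (v false) ↔ l' = l) fun l' =>
        dq_iff (dq_un _ _) (dq_const _)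

end Pool.Agent.H1.CH
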