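import Pool.Agent.H46.CH.UT

/-!
# Automata on digits: finite conjunctions and sums over sets
-/

set_option autoImplicit false

namespace Pool.Agent.H1.CH

open Classical Pool.Agent.H8.VR Pool.Agent.H69.VR Pool.Agent.H46.CH
open Pool.Agent.H8.JS (NTM Cfg Mv lang num)

theorem rh_foldl {ι κ : Type} (M : κ → DA ι) (w : List (ι → Bool)) :
    ∀ (s : ∀ k, (M k).σ) (k : κ),
      (w.foldl (fun (s : ∀ k, (M k).σ) b => fun k => (M k).step (s k) b) s) k =
        w.foldl (M k).step (s k) := by
  induction w with
  | nil => intro s k; rfl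
  | cons b w ih =>
    intro s k
    rw [List.foldl_cons, List.foldl_cons]
    exact ih _ k

theorem rh_prod {ι κ : Type} [Finite κ] (P : κ → (ι → ℕ) → Prop) (hP : ∀ k, Rg (P k))
    (F : (κ → Prop) → Prop) : Rg (fun v => F (fun k => P k v)) := by
  choose M hM using hP
  refine ⟨{ σ := ∀ k, (M k).σ
            fin := ?_
            ini := fun k => (M k).ini
            step := fun s b => fun k => (M k).step (s k) b
            acc := fun s => F (fun k => (M k).acc (s k)) }, ?_⟩
  · have h1 : ∀ k, Finite (M k).σ := fun k => (M k).fin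
    exact Pi.finite
  · intro w
    have h2 : (fun k => (M k).acc ((w.foldl (fun (s : ∀ k, (M k).σ) b => fun k =>
        (M k).step (s k) b) (fun k => (M k).ini)) k)) = fun k => P k (val w) := by
      funext k
      rw [rh_foldl M w _ k]
      exact propext (hM k w)
    show F (fun k => (M k).acc ((w.foldl (fun (s : ∀ k, (M k).σ) b => fun k =>
        (M k).step (s k) b) (fun k => (M k).ini)) k)) ↔ _
    rw [h2]

theorem pf_RH (hRG : T_RG) (hRQ : T_RQ) : T_RH := by
  obtain ⟨-, -, -, hR4, hR5⟩ := hRG
  refine ⟨?_, ?_, ?_, ?_, ?_⟩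
  · intro ι κ _ P hP
    exact rh_prod P hP (fun p => ∀ k, p k)
  · intro ι κ _ P hP
    exact rh_prod P hP (fun p => ∃ k, p k)
  · intro ι _ i X b
    have h1 := hRQ ι (fun j => (if j = i then 1 else 0) - (if X j then 1 else 0)) b
    have h2 : (fun v : ι → ℕ => ∑ j, ((if j = i then (1 : ℤ) else 0) -
        (if X j then 1 else 0)) * (v j : ℤ) = (b : ℤ)) = fun v => v i = fs X v + b := by
      funext v
      have h3 : ∑ j, ((if j = i then (1 : ℤ) else 0) - (if X j then 1 else 0)) * (v j : ℤ) =
          (v i : ℤ) - (fs X v : ℤ) := by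
        unfold fs
        push_cast
        simp only [sub_mul, Finset.sum_sub_distrib, ite_mul, one_mul, zero_mul, Finset.sum_filter]
        simp
      rw [h3]
      refine propext ⟨fun h => ?_, fun h => ?_⟩
      · have : (v i : ℤ) = ((fs X v + b : ℕ) : ℤ) := by push_cast; linarith
        exact_mod_cast this
      · rw [h]; push_cast; ring
    rw [← h2]
    exact h1
  · intro ι C _ _ K X u
    have h1 := hR5 ι C K (fun j => if X j then 1 else 0) u
    have h2 : ∀ v : ι → ℕ, ∑ j, (if X j then 1 else 0) * v j = fs X v := by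
      intro v
      unfold fs
      simp only [Finset.sum_filter, ite_mul, one_mul, zero_mul]
    simp only [h2] at h1
    exact h1
  · intro ι i
    have h1 := hRQ Unit (fun _ => 1) 0
    have h2 := hR4 Unit ι (fun _ => i) _ h1
    have h3 : (fun v : ι → ℕ => ∑ j : Unit, (1 : ℤ) * ((v i : ℕ) : ℤ) = 0) =
        fun v => v i = 0 := by
      funext v
      simp
    rw [← h3]
    exact h2

end Pool.Agent.H1.CH
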