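import Pool.Agent.H46.CH.UT

/-!
# Linear equations are recognised by automata on digits (row RQ)
-/

set_option autoImplicit false

namespace Pool.Agent.H1.CH

open Classical Pool.Agent.H8.VR Pool.Agent.H69.VR Pool.Agent.H46.CH
open Pool.Agent.H8.JS (NTM Cfg Mv lang num)

section
variable {ι : Type} [Fintype ι] (a : ι → ℤ) (B : ℤ)

/-- the value of the linear form on one digit -/
def dgv (x : ι → Bool) : ℤ := ∑ j, a j * ((x j).toNat : ℤ)

/-- the value of the linear form -/
def lf (w : List (ι → Bool)) : ℤ := ∑ j, a j * (val w j : ℤ)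

theorem val_snoc (w : List (ι → Bool)) (x : ι → Bool) (j : ι) :
    val (w ++ [x]) j = 2 * val w j + (x j).toNat := by
  simp [val, List.foldl_append]

theorem lf_snoc (w : List (ι → Bool)) (x : ι → Bool) :
    lf a (w ++ [x]) = 2 * lf a w + dgv a x := by
  unfold lf dgv
  rw [Finset.mul_sum, ← Finset.sum_add_distrib]
  refine Finset.sum_congr rfl fun j _ => ?_
  rw [val_snoc]
  push_cast
  ring

theorem dgv_le (x : ι → Bool) : |dgv a x| ≤ ∑ j, |a j| := by
  unfold dgv
  refine (Finset.abs_sum_le_sum_abs _ _).trans (Finset.sum_le_sum fun j _ => ?_)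
  rw [abs_mul]
  cases x j <;> simp

/-- the step -/
def stp : Option {z : ℤ // |z| ≤ B} → (ι → Bool) → Option {z : ℤ // |z| ≤ B}
  | none, _ => none
  | some z, x => if h : |2 * z.1 + dgv a x| ≤ B then some ⟨2 * z.1 + dgv a x, h⟩ else none

theorem stp_none (x : ι → Bool) : stp a B none x = none := rfl

theorem stp_some (z : {z : ℤ // |z| ≤ B}) (x : ι → Bool) : stp a B (some z) x =
    if h : |2 * z.1 + dgv a x| ≤ B then some ⟨2 * z.1 + dgv a x, h⟩ else none := rfl

theorem inv (hB : ∑ j, |a j| ≤ B) (h0 : |(0 : ℤ)| ≤ B) (w : List (ι → Bool)) :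
    (∃ h : |lf a w| ≤ B, w.foldl (stp a B) (some ⟨0, h0⟩) = some ⟨lf a w, h⟩) ∨
      (w.foldl (stp a B) (some ⟨0, h0⟩) = none ∧ B < |lf a w|) := by
  induction w using List.reverseRecOn with
  | nil =>
    left
    have e : lf a [] = 0 := by simp [lf, val]
    exact ⟨by rw [e]; exact h0, by simp [e]⟩
  | append_singleton w x ih =>
    rw [List.foldl_append, List.foldl_cons, List.foldl_nil, lf_snoc]
    rcases ih with ⟨h, e⟩ | ⟨e, h⟩
    · rw [e, stp_some]
      by_cases h1 : |2 * lf a w + dgv a x| ≤ B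
      · left
        exact ⟨h1, by rw [dif_pos h1]⟩
      · right
        exact ⟨by rw [dif_neg h1], not_le.1 h1⟩
    · right
      rw [e, stp_none]
      refine ⟨rfl, ?_⟩
      have h2 := dgv_le a x
      have h3 : |2 * lf a w| - |dgv a x| ≤ |2 * lf a w + dgv a x| := by
        have := abs_sub_abs_le_abs_sub (2 * lf a w) (-dgv a x)
        rw [abs_neg, sub_neg_eq_add] at this
        exact this
      have h4 : |2 * lf a w| = 2 * |lf a w| := by
        rw [abs_mul]
        norm_num
      linarith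

end

theorem pf_RQ : T_RQ := by
  intro ι _ a b
  obtain ⟨B, hB⟩ : ∃ B : ℤ, B = |b| + ∑ j, |a j| := ⟨_, rfl⟩
  have hs : 0 ≤ ∑ j, |a j| := Finset.sum_nonneg fun j _ => abs_nonneg _
  have h0 : |(0 : ℤ)| ≤ B := by
    rw [abs_zero, hB]
    have := abs_nonneg b
    linarith
  have hB1 : ∑ j, |a j| ≤ B := by
    have := abs_nonneg b
    linarith
  have hB2 : |b| ≤ B := by linarith
  have hf : Finite {z : ℤ // |z| ≤ B} := by
    have : {z : ℤ | |z| ≤ B} ⊆ Set.Icc (-B) B := fun z hz => abs_le.1 hz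
    exact ((Set.finite_Icc (-B) B).subset this).to_subtype
  refine ⟨⟨Option {z : ℤ // |z| ≤ B}, inferInstance, some ⟨0, h0⟩, stp a B,
    fun s => ∃ z : {z : ℤ // |z| ≤ B}, s = some z ∧ z.1 = b⟩, fun w => ?_⟩
  change (∃ z : {z : ℤ // |z| ≤ B}, w.foldl (stp a B) (some ⟨0, h0⟩) = some z ∧ z.1 = b) ↔
    lf a w = b
  rcases inv a B hB1 h0 w with ⟨h, e⟩ | ⟨e, h⟩
  · rw [e]
    constructor
    · rintro ⟨z, h1, h2⟩
      rw [← h2, ← Option.some_injective _ h1]
    · intro h1
      exact ⟨_, rfl, h1⟩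
  · rw [e]
    constructor
    · rintro ⟨z, h1, _⟩
      exact absurd h1 (by simp)
    · intro h1
      rw [h1] at h
      omega

end Pool.Agent.H1.CH
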